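import Pool.Agent.H43.CycMain

set_option autoImplicit false

namespace Pool.Agent.Results.MP_4d31e4_pr.Frog

open MeasureTheory ProbabilityTheory Filter Pool.Agent.H43.Cyc
open scoped NNReal ENNReal

abbrev X := ℕ × (ℕ → ℕ → Bool)

noncomputable def site (lam : ℝ≥0) : Measure X :=
  (poissonMeasure lam).prod (Measure.infinitePi fun _ : ℕ => coin)

instance (lam : ℝ≥0) : IsProbabilityMeasure (site lam) := by unfold site; infer_instance

instance (N : ℕ) [NeZero N] (lam : ℝ≥0) : IsProbabilityMeasure (frogs N lam) := by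
  unfold frogs; infer_instance

def none' (b : Bool) : Set X := {s | ∀ i < s.1, s.2 i 0 = !b}

lemma none_eq (b : Bool) : none' b =
    ⋃ n : ℕ, {n} ×ˢ Set.pi (Finset.range n) fun _ => {ξ : ℕ → Bool | ξ 0 = !b} := by
  ext ⟨n, f⟩; simp [none']

lemma c_meas (b : Bool) : MeasurableSet {ξ : ℕ → Bool | ξ 0 = b} :=
  (measurable_pi_apply (X := fun _ : ℕ => Bool) 0) (measurableSet_singleton b)

lemma none_meas (b : Bool) : MeasurableSet (none' b) := by
  rw [none_eq]
  exact MeasurableSet.iUnion fun n => (measurableSet_singleton n).prod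
    (MeasurableSet.pi (Finset.countable_toSet _) fun _ _ => c_meas _)

lemma none_prob (lam : ℝ≥0) (b : Bool) : (site lam).real (none' b) = Real.exp (-(lam / 2)) := by
  have h0 : coin {ξ : ℕ → Bool | ξ 0 = !b} = 2⁻¹ := by
    rw [← unif_bool (!b)]
    exact (measurePreserving_eval_infinitePi (fun _ : ℕ => uniformOn (Set.univ : Set Bool))
      0).measure_preimage (measurableSet_singleton _).nullMeasurableSet
  have h1 : HasSum (fun n : ℕ => Real.exp (-lam) * (lam : ℝ) ^ n / n.factorial * (1 / 2) ^ n)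
      (Real.exp (-(lam / 2))) := by
    have h2 := (hasSum_one_poissonMeasure (lam / 2)).mul_left (Real.exp (-(lam / 2)))
    rw [mul_one] at h2
    have h3 : (fun n : ℕ => Real.exp (-lam) * (lam : ℝ) ^ n / n.factorial * (1 / 2) ^ n) =
        fun n : ℕ => Real.exp (-(lam / 2)) * (Real.exp (-((lam / 2 : ℝ≥0) : ℝ)) *
          ((lam / 2 : ℝ≥0) : ℝ) ^ n / n.factorial) := by
      ext n
      have h4 : Real.exp (-lam) = Real.exp (-(lam / 2)) * Real.exp (-(lam / 2)) := by
        rw [← Real.exp_add]; congr 1; ring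
      rw [h4]
      push_cast
      rw [div_pow, div_pow]
      ring
    rw [h3]; exact h2
  rw [measureReal_def, none_eq, measure_iUnion]
  · simp only [site, Measure.prod_prod]
    rw [← h1.tsum_eq, ENNReal.tsum_toReal_eq fun n =>
      ENNReal.mul_ne_top (measure_ne_top _ _) (measure_ne_top _ _)]
    congr 1
    ext n
    rw [Measure.infinitePi_pi _ fun _ _ => c_meas _, poissonMeasure_singleton, ENNReal.toReal_mul,
      ENNReal.toReal_ofReal (by positivity)]
    simp [h0]
  · intro i j hij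
    exact Set.disjoint_prod.2 (Or.inl (Set.disjoint_singleton.2 hij))
  · exact fun n => (measurableSet_singleton n).prod
      (MeasurableSet.pi (Finset.countable_toSet _) fun _ _ => c_meas _)

variable {N : ℕ} [NeZero N]

def all (T : Finset (ZMod N)) (b : ZMod N → Bool) : Set (ZMod N → X) :=
  Set.pi T fun v => (none' (b v))ᶜ

omit [NeZero N] in
lemma all_meas (T : Finset (ZMod N)) (b : ZMod N → Bool) : MeasurableSet (all T b) :=
  MeasurableSet.pi (Finset.countable_toSet _) fun _ _ => (none_meas _).compl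

lemma all_prob (lam : ℝ≥0) (T : Finset (ZMod N)) (b : ZMod N → Bool) :
    (Measure.pi fun _ : ZMod N => site lam).real (all T b) =
      (1 - Real.exp (-(lam / 2))) ^ T.card := by
  rw [measureReal_def, all, Measure.pi_pi_finset, ENNReal.toReal_prod,
    Finset.prod_congr rfl (g := fun _ => 1 - Real.exp (-(lam / 2)))]
  · simp
  · intro v _
    rw [← none_prob lam (b v), ← probReal_compl_eq_one_sub (none_meas _), measureReal_def]

lemma snd_prob (lam : ℝ≥0) (A : Set (ZMod N → X)) :
    (frogs N lam).real (Set.univ ×ˢ A) = (Measure.pi fun _ : ZMod N => site lam).real A := by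
  rw [measureReal_def, frogs, Measure.prod_prod, measure_univ, one_mul]
  rfl

omit [NeZero N] in
lemma pos_one (x : ZMod N) (ξ : ℕ → Bool) : pos x ξ 1 = x + if ξ 0 then 1 else -1 := by
  simp [pos]

lemma reach_all (ω : (ℕ → Bool) × (ZMod N → X)) (h : ω.2 ∈ all Finset.univ fun _ => true)
    (v : ZMod N) : Reached 1 ω v := by
  have key : ∀ j : ℕ, Reached 1 ω (j : ZMod N) := by
    intro j
    induction j with
    | zero => simpa [pos] using Reached.extra (τ := 1) (ω := ω) 0 (by omega)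
    | succ j ih =>
      have h1 := h (j : ZMod N) (by simp)
      simp only [none', Set.mem_compl_iff, Set.mem_ofPred_eq, not_forall] at h1
      obtain ⟨i, hi, h2⟩ := h1
      have h3 := Reached.wake _ ih i hi 1 le_rfl
      rw [pos_one] at h3
      simp only [Bool.not_true, Bool.not_eq_false] at h2
      simpa [h2] using h3
  simpa using key v.val

lemma stuck (n : ℕ) (ω : (ℕ → Bool) × (ZMod (2 * n + 3) → X)) (a b : ZMod (2 * n + 3))
    (ha : 1 ≤ a.val) (hab : a.val + 1 < b.val) (h1 : ω.2 a ∈ none' true) (h2 : ω.2 b ∈ none' false)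
    (τ : ℕ) (hτ : τ ≤ 1) : ¬ Reached τ ω (a + 1) := by
  haveI : Fact (1 < 2 * n + 3) := ⟨by omega⟩
  have hs : ∀ w : ZMod (2 * n + 3), (w + 1).val = w.val + 1 ∨
      (w.val = 2 * n + 2 ∧ (w + 1).val = 0) := by
    intro w
    have h3 := ZMod.val_lt w
    rw [ZMod.val_add, ZMod.val_one]
    by_cases h4 : w.val + 1 < 2 * n + 3
    · exact Or.inl (Nat.mod_eq_of_lt h4)
    · right
      have h5 : w.val + 1 = 2 * n + 3 := by omega
      rw [h5, Nat.mod_self]; omega
  have hb := ZMod.val_lt b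
  have step : ∀ (v : ZMod (2 * n + 3)) (ξ : ℕ → Bool) (t : ℕ), t ≤ τ →
      (v.val ≤ a.val ∨ b.val ≤ v.val) → (v = a → ξ 0 = false) → (v = b → ξ 0 = true) →
      ((pos v ξ t).val ≤ a.val ∨ b.val ≤ (pos v ξ t).val) := by
    intro v ξ t ht hv h3 h4
    have h5 : v ≠ a → v.val ≠ a.val := fun h h' => h (ZMod.val_injective _ h')
    have h6 : v ≠ b → v.val ≠ b.val := fun h h' => h (ZMod.val_injective _ h')
    obtain rfl | rfl : t = 0 ∨ t = 1 := by omega
    · rwa [pos_zero]
    · rw [pos_one]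
      cases h7 : ξ 0
      · have h8 := h6 fun h => by simp [h4 h] at h7
        have h9 := hs (v + -1)
        have h10 := ZMod.val_lt v
        rw [neg_add_cancel_right] at h9
        simp only [Bool.false_eq_true, if_false]
        omega
      · have h8 := h5 fun h => by simp [h3 h] at h7
        have h9 := hs v
        simp only [if_true]
        omega
  have key : ∀ v, Reached τ ω v → (v.val ≤ a.val ∨ b.val ≤ v.val) := by
    intro v hv
    induction hv with
    | extra t ht =>
      refine step 0 _ t ht (Or.inl (by simp)) (fun h => ?_) (fun h => ?_)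
      · rw [← h] at ha; simp at ha
      · rw [← h] at hab; simp at hab
    | wake v _ i hi t ht ih =>
      refine step v _ t ht ih (fun h => ?_) (fun h => ?_)
      · subst h; exact h1 i hi
      · subst h; exact h2 i hi
  intro h
  have h3 := key _ h
  have h4 := hs a
  omega

theorem result : ∃ lam : ℕ → ℝ≥0, (∀ n, 1 ≤ lam n) ∧ ∀ n ≥ 1,
    0 < ∫⁻ ω, (susc ω : ℝ≥0∞) ∂(frogs (2 * n + 3) (lam n)) ∧
    ∫⁻ ω, (susc ω : ℝ≥0∞) ∂(frogs (2 * n + 3) (lam n)) < ⊤ ∧
    1 / 121 ≤ (frogs (2 * n + 3) (lam n)).real {ω | susc ω ≤ 1} ∧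
    1 / 121 ≤ (frogs (2 * n + 3) (lam n)).real {ω | 1 < susc ω} ∧
    1 / 121 ≤ (frogs (2 * n + 3) (lam n)).real {ω | 1 / 3 ≤
      |((susc ω).toNat : ℝ) /
        (∫⁻ ω, (susc ω : ℝ≥0∞) ∂(frogs (2 * n + 3) (lam n))).toReal - 1|} := by
  have hlog : ∀ n : ℕ, 1 ≤ 2 * Real.log (4 * n + 6) := by
    intro n
    have h1 : (0 : ℝ) ≤ n := Nat.cast_nonneg n
    have h2 := Real.log_le_log (by norm_num) (show (2 : ℝ) ≤ 4 * n + 6 by linarith)
    linarith [Real.log_two_gt_d9]
  have hex : ∀ n : ℕ, ∃ lam : ℝ≥0, (lam : ℝ) = 2 * Real.log (4 * n + 6) := fun n =>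
    ⟨Real.toNNReal _, Real.coe_toNNReal _ (by linarith [hlog n])⟩
  choose l hl' using hex
  refine ⟨l, fun n => by rw [← NNReal.coe_le_coe, hl']; exact hlog n, fun n hn => ?_⟩
  have hl := hl' n
  generalize l n = lam at hl ⊢
  have hn1 : (1 : ℝ) ≤ n := by exact_mod_cast hn
  have hq : Real.exp (-(lam / 2)) = 1 / (4 * n + 6) := by
    rw [hl, mul_div_cancel_left₀ _ (by norm_num), Real.exp_neg, Real.exp_log (by linarith), one_div]
  have hq1 : 1 / (4 * (n : ℝ) + 6) ≤ 1 := by rw [div_le_one (by linarith)]; linarith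
  let T1 : Finset (ZMod (2 * n + 3)) := (Finset.Ico 1 (n + 1)).image Nat.cast
  let T2 : Finset (ZMod (2 * n + 3)) := (Finset.Ico (n + 3) (2 * n + 3)).image Nat.cast
  have hv : ∀ j : ℕ, j < 2 * n + 3 → (j : ZMod (2 * n + 3)).val = j := fun j hj =>
    ZMod.val_cast_of_lt hj
  have hT1 : ∀ a ∈ T1, 1 ≤ a.val ∧ a.val ≤ n := by
    intro a ha
    obtain ⟨j, hj, rfl⟩ := Finset.mem_image.1 ha
    rw [Finset.mem_Ico] at hj
    rw [hv j (by omega)]; omega
  have hT2 : ∀ a ∈ T2, n + 3 ≤ a.val := by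
    intro a ha
    obtain ⟨j, hj, rfl⟩ := Finset.mem_image.1 ha
    rw [Finset.mem_Ico] at hj
    rw [hv j (by omega)]; omega
  have hinj : ∀ a b : ℕ, b ≤ 2 * n + 3 →
      ((Finset.Ico a b).image (Nat.cast : ℕ → ZMod (2 * n + 3))).card = b - a := by
    intro a b hb
    rw [Finset.card_image_of_injOn, Nat.card_Ico]
    intro i hi j hj h
    simp only [Finset.coe_Ico, Set.mem_Ico] at hi hj
    rw [← hv i (by omega), h, hv j (by omega)]
  have hc1 : T1.card = n := by rw [hinj _ _ (by omega)]; omega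
  have hc2 : T2.card = n := by rw [hinj _ _ (by omega)]; omega
  have hdisj : Disjoint T1 T2 := by
    rw [Finset.disjoint_left]
    intro a h1 h2
    have := hT1 a h1
    have := hT2 a h2
    omega
  let b : ZMod (2 * n + 3) → Bool := fun v => decide (v.val ≤ n)
  have hm : MeasurableSet (all T1 b ∪ all T2 b) := (all_meas _ _).union (all_meas _ _)
  have h := final (frogs (2 * n + 3) lam) susc 1 (1 / 121) (by norm_num) ?_ ?_
    (Set.univ ×ˢ (all T1 b ∪ all T2 b)ᶜ) (MeasurableSet.univ.prod hm.compl) ?_ ?_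
  · norm_num at h ⊢
    exact h
  · refine lint_fin _ Prod.fst measurePreserving_fst (2 * n + 3) (by omega) _ fun ω j hj => ?_
    refine iInf₂_le_of_le ((j + 1) * (2 * n + 3)) (fun v => ?_) le_rfl
    obtain ⟨s, hs, rfl⟩ := cover_block 0 ω.1 j hj v
    exact Reached.extra s hs
  · have h4 : Set.univ ×ˢ (all Finset.univ fun _ => true) ⊆
        {ω : (ℕ → Bool) × (ZMod (2 * n + 3) → X) | susc ω ≤ (1 : ℕ)} := by
      intro ω hω
      simp only [Set.mem_ofPred_eq, susc]
      exact iInf₂_le_of_le 1 (reach_all ω hω.2) le_rfl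
    refine le_trans ?_ (measureReal_mono h4)
    rw [snd_prob, all_prob, hq, Finset.card_univ, ZMod.card]
    have h5 := one_add_mul_le_pow (a := -(1 / (4 * (n : ℝ) + 6))) (by linarith) (2 * n + 3)
    have h6 : ((2 * n + 3 : ℕ) : ℝ) * -(1 / (4 * (n : ℝ) + 6)) = -(1 / 2) := by
      push_cast; field_simp; ring
    rw [h6, ← sub_eq_add_neg, ← sub_eq_add_neg] at h5
    linarith
  · rintro ω ⟨_, hω⟩
    simp only [Set.compl_union, Set.mem_inter_iff, Set.mem_compl_iff, all, Set.mem_pi,
      not_forall, not_not] at hω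
    obtain ⟨⟨a, ha, h1⟩, c, hc, h2⟩ := hω
    have h3 := hT1 a ha
    have h4 := hT2 c hc
    have h5 : b a = true := decide_eq_true h3.2
    have h6 : b c = false := decide_eq_false (by omega)
    rw [h5] at h1
    rw [h6] at h2
    refine lt_of_lt_of_le (b := ((1 + 1 : ℕ) : ℕ∞)) (by exact_mod_cast Nat.lt_succ_self 1)
      (le_iInf₂ fun t ht => ?_)
    have h7 : 1 + 1 ≤ t := by
      by_contra h8
      exact stuck n ω a c h3.1 (by omega) h1 h2 t (by omega) (ht _)
    exact_mod_cast h7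
  · have h1 : all T1 b ∩ all T2 b = all (T1 ∪ T2) b := by
      simp only [all, Finset.coe_union, Set.union_pi]
    have h2 := measureReal_union_add_inter (μ := Measure.pi fun _ : ZMod (2 * n + 3) => site lam)
      (s := all T1 b) (all_meas T2 b)
    rw [h1, all_prob, all_prob, all_prob, Finset.card_union_of_disjoint hdisj, hc1, hc2, hq,
      pow_add] at h2
    rw [snd_prob, probReal_compl_eq_one_sub hm]
    have h3 : (1 - 1 / (4 * (n : ℝ) + 6)) ^ n ≤ 10 / 11 := by
      have h4 := one_add_mul_le_pow (a := 1 / (4 * (n : ℝ) + 6))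
        (le_trans (by norm_num) (by positivity : (0 : ℝ) ≤ 1 / (4 * (n : ℝ) + 6))) n
      have h5 : (1 - 1 / (4 * (n : ℝ) + 6)) ^ n * (1 + 1 / (4 * (n : ℝ) + 6)) ^ n ≤ 1 := by
        rw [← mul_pow]
        refine pow_le_one₀ (mul_nonneg (by linarith) (by positivity)) ?_
        nlinarith [sq_nonneg (1 / (4 * (n : ℝ) + 6))]
      have h6 : 1 / 10 ≤ (n : ℝ) * (1 / (4 * (n : ℝ) + 6)) := by
        rw [mul_one_div, le_div_iff₀ (by linarith)]; linarith
      have h7 : 0 ≤ (1 - 1 / (4 * (n : ℝ) + 6)) ^ n := pow_nonneg (by linarith) _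
      nlinarith [mul_le_mul_of_nonneg_left h4 h7]
    nlinarith

end Pool.Agent.Results.MP_4d31e4_pr.Frog
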