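import Pool.Agent.H43.CycMain

set_option autoImplicit false

namespace Pool.Agent.Results.MP_4d31e4_pr.Walkers

open MeasureTheory ProbabilityTheory Filter Pool.Agent.H43.Cyc Pool.Agent.H43.Dep
open scoped NNReal ENNReal

variable {N : ℕ} [NeZero N]

noncomputable def nu (N : ℕ) : Measure (ZMod N × (ℕ → Bool)) :=
  (uniformOn (Set.univ : Set (ZMod N))).prod coin

instance : IsProbabilityMeasure (nu N) := by unfold nu; infer_instance

instance (m : ℕ) : IsProbabilityMeasure (walkers N m) := by unfold walkers; infer_instance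

def V (k : ℕ) (v : ZMod N) : Set (ZMod N × (ℕ → Bool)) := {p | ∃ s ≤ k, pos p.1 p.2 s = v}

lemma V_meas (k : ℕ) (v : ZMod N) : MeasurableSet (V k v) := by
  have : V k v = ⋃ x : ZMod N, {x} ×ˢ {ξ | ∃ s ≤ k, pos x ξ s = v} := by
    ext ⟨x, ξ⟩; simp [V]
  rw [this]
  refine MeasurableSet.iUnion fun x => (measurableSet_singleton x).prod ?_
  refine Dep.meas (S := Finset.range k) ?_
  rintro ω ω' h ⟨s, hs, h1⟩
  refine ⟨s, hs, ?_⟩
  rw [← h1]
  unfold pos
  congr 1
  exact Finset.sum_congr rfl fun t ht => by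
    rw [h t (Finset.mem_range.2 ((Finset.mem_range.1 ht).trans_le hs))]

omit [NeZero N] in
lemma pos_near (x : ZMod N) (ξ : ℕ → Bool) (s : ℕ) :
    ∃ z : ℤ, -(s : ℤ) ≤ z ∧ z ≤ s ∧ pos x ξ s = x + z := by
  induction s with
  | zero => exact ⟨0, by simp, by simp, by simp [pos]⟩
  | succ s ih =>
    obtain ⟨z, h1, h2, h3⟩ := ih
    rw [pos_succ, h3]
    cases ξ s
    · exact ⟨z - 1, by push_cast; omega, by push_cast; omega, by simp; ring⟩
    · exact ⟨z + 1, by push_cast; omega, by push_cast; omega, by simp; ring⟩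

noncomputable def near (r : ℕ) (v : ZMod N) : Finset (ZMod N) :=
  (Finset.Icc (-(r : ℤ)) r).image fun z : ℤ => v + z

omit [NeZero N] in
lemma card_near (r : ℕ) (v : ZMod N) : (near r v).card ≤ 2 * r + 1 := by
  refine Finset.card_image_le.trans ?_
  rw [Int.card_Icc]; omega

lemma nu_fst (T : Finset (ZMod N)) : (nu N).real ((T : Set (ZMod N)) ×ˢ Set.univ) = T.card / N := by
  rw [measureReal_def, nu, Measure.prod_prod, measure_univ, mul_one, uniformOn_univ]
  simp [ZMod.card]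

lemma p_ge (k : ℕ) (v : ZMod N) : 1 / (N : ℝ) ≤ (nu N).real (V k v) := by
  have := nu_fst ({v} : Finset (ZMod N))
  simp only [Finset.card_singleton, Nat.cast_one] at this
  rw [← this]
  refine measureReal_mono ?_
  rintro ⟨x, ξ⟩ ⟨h, _⟩
  exact ⟨0, Nat.zero_le _, by simpa [pos] using h⟩

lemma p_le (k : ℕ) (hN : 4 * k + 2 ≤ N) (v : ZMod N) : (nu N).real (V k v) ≤ 1 / 2 := by
  have h1 : V k v ⊆ (near k v : Set (ZMod N)) ×ˢ Set.univ := by
    rintro ⟨x, ξ⟩ ⟨s, hs, h⟩
    obtain ⟨z, h1, h2, h3⟩ := pos_near x ξ s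
    refine ⟨Finset.mem_coe.2 (Finset.mem_image.2 ⟨-z, Finset.mem_Icc.2 (by omega), ?_⟩), trivial⟩
    simp only at h
    rw [← h, h3]; simp
  refine (measureReal_mono h1).trans ?_
  rw [nu_fst]
  have h2 : ((near k v).card : ℝ) ≤ 2 * k + 1 := by exact_mod_cast card_near k v
  have h3 : 4 * (k : ℝ) + 2 ≤ N := by exact_mod_cast hN
  have h4 : (0 : ℝ) ≤ k := Nat.cast_nonneg k
  rw [div_le_iff₀ (by linarith)]
  linarith

omit [NeZero N] in
lemma far (k : ℕ) (u v : ZMod N) (h : v ∉ near (2 * k) u) : Disjoint (V k u) (V k v) := by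
  rw [Set.disjoint_left]
  rintro ⟨x, ξ⟩ ⟨s, hs, h1⟩ ⟨t, ht, h2⟩
  obtain ⟨z, h3, h4, h5⟩ := pos_near x ξ s
  obtain ⟨w, h6, h7, h8⟩ := pos_near x ξ t
  refine h (Finset.mem_image.2 ⟨w - z, Finset.mem_Icc.2 (by push_cast; omega), ?_⟩)
  simp only at h1 h2
  rw [← h1, ← h2, h5, h8]; push_cast; ring

def miss (m : ℕ) (A : Set (ZMod N × (ℕ → Bool))) : Set (Fin m → ZMod N × (ℕ → Bool)) :=
  Set.pi Set.univ fun _ => Aᶜ

lemma miss_prob (m : ℕ) (A : Set (ZMod N × (ℕ → Bool))) (hA : MeasurableSet A) :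
    (walkers N m).real (miss m A) = (1 - (nu N).real A) ^ m := by
  rw [← probReal_compl_eq_one_sub hA, measureReal_def, walkers, miss, Measure.pi_pi]
  simp [measureReal_def, nu]

lemma main (k : ℕ) (hN : 4 * k + 2 ≤ N) : ∃ m : ℕ, N ≤ 2 ^ m ∧ 0 < m ∧
    (walkers N m).real (⋃ v, miss m (V k v)) ≤ 1 / 2 ∧
    1 / (16 * (k : ℝ) + 8) ≤ (walkers N m).real (⋃ v, miss m (V k v)) := by
  have hN0 : (0 : ℝ) < N := by exact_mod_cast (show 0 < N by omega)
  let x : ℕ → ℝ := fun m => ∑ v : ZMod N, (1 - (nu N).real (V k v)) ^ m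
  have hp : ∀ v : ZMod N, 1 / 2 ≤ 1 - (nu N).real (V k v) := fun v => by linarith [p_le k hN v]
  have hex : ∃ m, x m ≤ 1 / 2 := by
    have h1 : 1 - 1 / (N : ℝ) < 1 := by have := one_div_pos.2 hN0; linarith
    obtain ⟨m, hm⟩ := exists_pow_lt_of_lt_one (show 0 < 1 / (2 * (N : ℝ)) by positivity) h1
    refine ⟨m, (Finset.sum_le_sum (g := fun _ => 1 / (2 * (N : ℝ))) fun v _ => le_trans
      (pow_le_pow_left₀ (by linarith [hp v]) (by linarith [p_ge k v]) m) hm.le).trans ?_⟩
    simp only [Finset.sum_const, Finset.card_univ, ZMod.card, nsmul_eq_mul]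
    exact le_of_eq (by field_simp)
  have h1 := Nat.find_spec hex
  have hlow : ∀ m, (N : ℝ) * (1 / 2) ^ m ≤ x m := by
    intro m
    refine le_trans (le_of_eq ?_) (Finset.sum_le_sum (f := fun _ => (1 / 2 : ℝ) ^ m) fun v _ =>
      pow_le_pow_left₀ (by norm_num) (hp v) m)
    simp [ZMod.card]
  have hN1 : (1 : ℝ) ≤ N := by exact_mod_cast (show 1 ≤ N by omega)
  obtain ⟨j, hj⟩ : ∃ j, Nat.find hex = j + 1 := by
    refine Nat.exists_eq_succ_of_ne_zero fun h => ?_
    have := hlow 0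
    rw [h] at h1
    simp only [pow_zero, mul_one] at this
    linarith
  have h2 := not_le.1 (Nat.find_min hex (show j < Nat.find hex by omega))
  rw [hj] at h1
  have h3 : 1 / 4 ≤ x (j + 1) := by
    have : x j * (1 / 2) ≤ x (j + 1) := by
      simp only [x, Finset.sum_mul, pow_succ]
      exact Finset.sum_le_sum fun v _ =>
        mul_le_mul_of_nonneg_left (hp v) (pow_nonneg (by linarith [hp v]) _)
    linarith
  generalize hm : j + 1 = m at h1 h3
  have hx : ∑ v : ZMod N, (walkers N m).real (miss m (V k v)) = x m :=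
    Finset.sum_congr rfl fun v _ => miss_prob m _ (V_meas k v)
  refine ⟨m, ?_, by omega, (measureReal_iUnion_fintype_le _).trans (hx.trans_le h1), ?_⟩
  · have h4 := hlow m
    rw [one_div, inv_pow, ← div_eq_mul_inv, div_le_iff₀ (by positivity)] at h4
    have h5 : (N : ℝ) ≤ 2 ^ m := by nlinarith [pow_pos (show (0 : ℝ) < 2 by norm_num) m]
    exact_mod_cast h5
  have hmm : ∀ v : ZMod N, MeasurableSet (miss m (V k v)) := fun v =>
    MeasurableSet.univ_pi fun _ => (V_meas k v).compl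
  have h4 := second (walkers N m) (fun v => miss m (V k v)) hmm (1 / (4 * k + 2))
  have h5 : ∀ u : ZMod N, ∑ v, (walkers N m).real (miss m (V k u) ∩ miss m (V k v)) ≤
      (walkers N m).real (miss m (V k u)) * (x m + (4 * k + 1)) := by
    intro u
    classical
    have h6 : ∀ v, (walkers N m).real (miss m (V k u) ∩ miss m (V k v)) ≤
        (walkers N m).real (miss m (V k u)) * ((walkers N m).real (miss m (V k v)) +
          if v ∈ near (2 * k) u then 1 else 0) := by
      intro v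
      split_ifs with h
      · refine (measureReal_mono Set.inter_subset_left).trans ?_
        exact le_mul_of_one_le_right measureReal_nonneg (le_add_of_nonneg_left measureReal_nonneg)
      · have h7 : miss m (V k u) ∩ miss m (V k v) = miss m (V k u ∪ V k v) := by
          simp only [miss, Set.compl_union, Set.pi_inter_distrib]
        have h8 := measureReal_union (μ := nu N) (far k u v h) (V_meas k v)
        rw [h7, add_zero, miss_prob _ _ ((V_meas k u).union (V_meas k v)), miss_prob _ _ (V_meas k u),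
          miss_prob _ _ (V_meas k v), ← mul_pow, h8]
        refine pow_le_pow_left₀ (by linarith [hp u, hp v]) ?_ m
        nlinarith [mul_nonneg (measureReal_nonneg (μ := nu N) (s := V k u))
          (measureReal_nonneg (μ := nu N) (s := V k v))]
    refine (Finset.sum_le_sum fun v _ => h6 v).trans ?_
    rw [← Finset.mul_sum, Finset.sum_add_distrib, hx]
    refine mul_le_mul_of_nonneg_left (add_le_add le_rfl ?_) measureReal_nonneg
    simp only [Finset.sum_ite_mem, Finset.univ_inter, Finset.sum_const, nsmul_eq_mul, mul_one]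
    have := card_near (2 * k) u
    exact_mod_cast (by omega : (near (2 * k) u).card ≤ 4 * k + 1)
  have h6 := Finset.sum_le_sum fun u (_ : u ∈ Finset.univ) => h5 u
  rw [← Finset.sum_mul, hx] at h6
  rw [hx] at h4
  refine le_trans ?_ h4
  have hk : (0 : ℝ) ≤ k := Nat.cast_nonneg k
  generalize ∑ u : ZMod N, ∑ v, (walkers N m).real (miss m (V k u) ∩ miss m (V k v)) = y at h6
  generalize x m = t at *
  have h7 : y ≤ t * (4 * k + 2) := h6.trans (mul_le_mul_of_nonneg_left (by linarith) (by linarith))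
  have h8 : (1 / (4 * (k : ℝ) + 2)) ^ 2 * y ≤ 1 / (4 * k + 2) * t := by
    refine (mul_le_mul_of_nonneg_left h7 (by positivity)).trans (le_of_eq ?_)
    field_simp
  have h9 : 1 / (16 * (k : ℝ) + 8) = 1 / (4 * k + 2) * (1 / 4) := by field_simp; ring
  have h10 : 1 / (4 * (k : ℝ) + 2) * (1 / 4) ≤ 1 / (4 * k + 2) * t :=
    mul_le_mul_of_nonneg_left h3 (by positivity)
  linarith

theorem result (k : ℕ) : ∃ m : ℕ → ℕ, Tendsto m atTop atTop ∧ ∀ n ≥ 4 * k,
    0 < ∫⁻ ω, (coverTime ω : ℝ≥0∞) ∂(walkers (n + 3) (m n)) ∧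
    ∫⁻ ω, (coverTime ω : ℝ≥0∞) ∂(walkers (n + 3) (m n)) < ⊤ ∧
    1 / (16 * (k : ℝ) + 8) ≤ (walkers (n + 3) (m n)).real {ω | coverTime ω ≤ k} ∧
    1 / (16 * (k : ℝ) + 8) ≤ (walkers (n + 3) (m n)).real {ω | (k : ℕ∞) < coverTime ω} ∧
    1 / (16 * (k : ℝ) + 8) ≤ (walkers (n + 3) (m n)).real {ω | 1 / (2 * (k : ℝ) + 1) ≤
      |((coverTime ω).toNat : ℝ) /
        (∫⁻ ω, (coverTime ω : ℝ≥0∞) ∂(walkers (n + 3) (m n))).toReal - 1|} := by
  have h := fun n => main (N := max n (4 * k) + 3) k (by omega)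
  choose m hm using h
  refine ⟨m, tendsto_atTop.2 fun b => eventually_atTop.2 ⟨2 ^ b, fun n hn => ?_⟩, fun n hn => ?_⟩
  · have h1 : 2 ^ b ≤ 2 ^ m n := by have := (hm n).1; omega
    exact (Nat.pow_le_pow_iff_right (by norm_num)).1 h1
  have h1 := hm n
  generalize m n = M at h1 ⊢
  rw [max_eq_left hn] at h1
  obtain ⟨_, h0, h2, h3⟩ := h1
  have hk : (0 : ℝ) ≤ k := Nat.cast_nonneg k
  have hU : MeasurableSet (⋃ v : ZMod (n + 3), miss M (V k v)) :=
    MeasurableSet.iUnion fun v => MeasurableSet.univ_pi fun _ => (V_meas k v).compl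
  refine final _ _ k _ (by positivity) ?_ ?_ _ hU ?_ h3
  · refine lint_fin _ (fun ω => (ω ⟨0, h0⟩).2) ?_ (n + 3) (by omega) _ fun ω j hj => ?_
    · exact (measurePreserving_snd (μ := uniformOn (Set.univ : Set (ZMod (n + 3))))
        (ν := coin)).comp (measurePreserving_eval (fun _ : Fin M => nu (n + 3)) ⟨0, h0⟩)
    · exact iInf₂_le_of_le ((j + 1) * (n + 3)) (fun v => ⟨⟨0, h0⟩, cover_block _ _ j hj v⟩) le_rfl
  · have h4 : (⋃ v : ZMod (n + 3), miss M (V k v))ᶜ ⊆ {ω | coverTime ω ≤ k} := by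
      intro ω hω
      simp only [Set.mem_ofPred_eq, coverTime]
      refine iInf₂_le_of_le k (fun v => ?_) le_rfl
      by_contra h5
      exact hω (Set.mem_iUnion.2 ⟨v, fun i _ hi => h5 ⟨i, hi⟩⟩)
    refine le_trans ?_ (measureReal_mono h4)
    rw [probReal_compl_eq_one_sub hU]
    have : 1 / (16 * (k : ℝ) + 8) ≤ 1 / 2 := one_div_le_one_div_of_le (by norm_num) (by linarith)
    linarith
  · intro ω hω
    obtain ⟨v, hv⟩ := Set.mem_iUnion.1 hω
    refine lt_of_lt_of_le (b := ((k + 1 : ℕ) : ℕ∞)) (by exact_mod_cast Nat.lt_succ_self k)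
      (le_iInf₂ fun t ht => ?_)
    obtain ⟨i, s, hs, h5⟩ := ht v
    have h6 : k + 1 ≤ t := by
      by_contra h7
      exact hv i trivial ⟨s, by omega, h5⟩
    exact_mod_cast h6

end Pool.Agent.Results.MP_4d31e4_pr.Walkers
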